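import Pool.Agent.H94.FermatSmall

/-!
`N53924c76.a n = 2^n - ⌊log₂ P_n⌋`, where `P_n` is the least prime factor of the `n`-th Fermat
number (the frozen definition).  Known: `a n ≤ 2^n - n - 2` for `n ≥ 2`.  Here the bound is improved
by an unbounded amount on a set of `n` of positive lower density.
-/

namespace Pool.Agent.Results.MP_1b976e_nt.AlongMultiples

theorem result (J : ℕ) : ∃ L : ℕ, 0 < L ∧ Real.log L ≤ (Real.log 4 + 4) * J + Real.log 4 ∧
    ∀ n : ℕ, 0 < n → L ∣ n →
      (J + 1) * 2 ^ (n + 2) < (Nat.fermatNumber n).minFac ∧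
      N53924c76.a n + (n + 2 + Nat.log 2 (J + 1)) ≤ 2 ^ n :=
  Pool.Agent.H94.FermatSmall.main J

end Pool.Agent.Results.MP_1b976e_nt.AlongMultiples
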