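import Pool.Agent.MFN.Fin
import Pool.Agent.MFN.Baire

/-! # Least prime factors of `⌊α^(2^n)⌋^(2^k) + 1` for almost every `α` (MP_1b976e_nt) -/

namespace Pool.Agent.Results.MP_1b976e_nt.MetricLaw

open Filter Finset Pool.Agent.MFN

/-- `F k n α = ⌊α^(2^n)⌋^(2^k) + 1` and `a k n α = ⌊log₂ F⌋ - ⌊log₂ P⌋` (`P` the least prime factor
of `F = F k n α`); for `α = 2` they are the Fermat number and the number `a` of the problem with
index `n + k`.  `W k y` is the product of `1 - ρ_k(p)/p` over the primes `p ≤ y`.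
Part 2: the number of `n < N` with `P > ψ n`.  Part 3: zero-one law for `log P > φ n`.
Part 4: the analogue of Q1 for almost every `α`.  Part 5: it fails for a residual set of `α`. -/
theorem result :
    (∀ k n : ℕ, F k n 2 = Nat.fermatNumber (n + k) ∧ a k n 2 = N53924c76.a (n + k)) ∧
    (∀ ψ : ℕ → ℕ, ∀ᵐ α : ℝ, 1 < α → ∀ k : ℕ,
      (Summable (fun n => W k (ψ n)) → ∀ᶠ n in atTop, (F k n α).minFac ≤ ψ n) ∧
      (¬ Summable (fun n => W k (ψ n)) → Tendsto (fun N : ℕ =>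
        (((range N).filter fun n => ψ n < (F k n α).minFac).card : ℝ) / ∑ n ∈ range N, W k (ψ n))
          atTop (nhds 1))) ∧
    (∀ φ : ℕ → ℝ, (∀ n, 1 ≤ φ n) → ∀ᵐ α : ℝ, 1 < α → ∀ k : ℕ,
      (Summable (fun n => 1 / φ n) → ∀ᶠ n in atTop, Real.log (F k n α).minFac ≤ φ n) ∧
      (¬ Summable (fun n => 1 / φ n) → ∃ᶠ n in atTop, φ n < Real.log (F k n α).minFac)) ∧
    (∀ᵐ α : ℝ, 1 < α → ∀ k : ℕ,
      Tendsto (fun n : ℕ => (a k n α : ℝ) / (2 ^ (n + k) * Real.logb 2 α)) atTop (nhds 1)) ∧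
    (∀ᶠ α : ℝ in residual ℝ, 1 < α → ∃ᶠ n in atTop, (F 0 n α).Prime ∧ a 0 n α = 0) :=
  ⟨fun k n => ⟨F_two k n, a_two k n⟩, count_law, zero_one, a_asymp, residual_prime⟩

end Pool.Agent.Results.MP_1b976e_nt.MetricLaw
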