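import Pool.Agent.MFN.UEnd
import Pool.Agent.MFN.Baire

/-! # Least prime factors of `b^(2^n) + 1` for typical bases `b` (MP_1b976e_nt) -/

namespace Pool.Agent.Results.MP_1b976e_nt.TypicalBases

open Filter Finset Pool.Agent.MFN

open Classical in
/-- `a 0 n b = ⌊log₂ (b^(2^n) + 1)⌋ - ⌊log₂ P⌋`, where `P` is the least prime factor of
`F 0 n b = b^(2^n) + 1`.  `Good L n b`: `P ≤ 2^L` and `|a 0 n b - 2^n log₂ b| ≤ L + 1`.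
Part 3: one exponent `n`, every `L`, all intervals of length `X ≥ 2^L`.
Part 4: all exponents `n` from `N` to `M` at once, all intervals of length `X ≥ 2^(M^B)`. -/
theorem result :
    (∀ n b : ℕ, F 0 n (b : ℝ) = b ^ 2 ^ n + 1) ∧
    (∀ n : ℕ, a 0 n 2 = N53924c76.a n) ∧
    (∀ ε : ℝ, 0 < ε → ∃ C : ℝ, 0 < C ∧ ∀ (n : ℕ) (L : ℝ) (A X : ℕ), 1 ≤ n → 1 ≤ L →
      (2 : ℝ) ^ L ≤ X →
        (((Ico A (A + X)).filter fun b => ¬ Good L n b).card : ℝ) ≤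
          C * X * ((n : ℝ) ^ (1 + ε) / L ^ (1 - ε))) ∧
    (∀ B δ : ℝ, 2 < B → 0 < δ → ∃ N : ℕ, ∀ M A X : ℕ, (2 : ℝ) ^ ((M : ℝ) ^ B) ≤ X →
      (((Ico A (A + X)).filter fun b => ∃ n : ℕ, N ≤ n ∧ n ≤ M ∧
        ¬ Good ((n : ℝ) ^ B) n b).card : ℝ) ≤ δ * X) :=
  ⟨F_base, fun n => a_two 0 n, V_unif', V_all'⟩

end Pool.Agent.Results.MP_1b976e_nt.TypicalBases
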