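import Pool.Agent.MFN.UEnd
import Pool.Agent.MFN.Baire

/-! # Least prime factors of `⌊α^(2^(n-k))⌋^(2^k) + 1`, uniformly in `k` (MP_1b976e_nt) -/

namespace Pool.Agent.Results.MP_1b976e_nt.UniformLaw

open Filter Finset Pool.Agent.MFN

/-- `F k n α = ⌊α^(2^n)⌋^(2^k) + 1` and `a k n α = ⌊log₂ F⌋ - ⌊log₂ P⌋` (`P` the least prime factor
of `F = F k n α`); for `α = 2` and every `k ≤ n`, `F k (n - k) α` is the Fermat number of index `n`.
For almost every `α > 1`, the analogue of Q1 holds uniformly in `k ≤ n - B log₂ n`. -/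
theorem result :
    (∀ k n : ℕ, k ≤ n → F k (n - k) 2 = Nat.fermatNumber n ∧ a k (n - k) 2 = N53924c76.a n) ∧
    (∀ B : ℝ, 3 < B → ∀ᵐ α : ℝ, 1 < α → ∀ᶠ n : ℕ in atTop, ∀ k : ℕ,
      (k : ℝ) + B * Real.logb 2 n ≤ n →
        ((F k (n - k) α).minFac : ℝ) ≤ (2 : ℝ) ^ ((n : ℝ) ^ B) ∧
        |(a k (n - k) α : ℝ) - 2 ^ n * Real.logb 2 α| ≤ (n : ℝ) ^ B + 2) :=
  ⟨fun k n hk => by
    have h := F_two k (n - k)
    have h' := a_two k (n - k)
    rw [Nat.sub_add_cancel hk] at h h'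
    exact ⟨h, h'⟩, fun _ hB => U_a hB⟩

end Pool.Agent.Results.MP_1b976e_nt.UniformLaw
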